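import Pool.Agent.Helper60.HB.Skel

set_option autoImplicit false

open NumberField

namespace Pool.Agent.Helper78.HB

open Pool.Agent.Helper60.HB

/-- choice of `B` -/
theorem rp_B (s : ℕ) (lam : ℝ) : ∃ B : ℕ, 1 ≤ B ∧ lam ≤ (B : ℝ) ^ (s + 1) ∧
    ((B : ℝ) + 1) ^ (s + 1) ≤ 4 ^ (s + 1) * max 1 lam ∧
    ∀ L : ℝ, 1 ≤ L → lam ≤ L → (B : ℝ) ≤ 2 * L ^ (1 / ((s : ℝ) + 1)) := by
  have hm1 : (1 : ℝ) ≤ max 1 lam := le_max_left _ _
  have hs : (0 : ℝ) < (s : ℝ) + 1 := by positivity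
  obtain ⟨r, hr⟩ : ∃ r, r = (max 1 lam) ^ (1 / ((s : ℝ) + 1)) := ⟨_, rfl⟩
  have hr1 : 1 ≤ r := by
    rw [hr]
    exact Real.one_le_rpow hm1 (by positivity)
  have hrp : r ^ (s + 1) = max 1 lam := by
    rw [hr, ← Real.rpow_natCast, ← Real.rpow_mul (by linarith)]
    push_cast
    rw [one_div, inv_mul_cancel₀ hs.ne', Real.rpow_one]
  have h1 : (⌈r⌉₊ : ℝ) < r + 1 := Nat.ceil_lt_add_one (by linarith)
  refine ⟨⌈r⌉₊, ?_, ?_, ?_, ?_⟩
  · exact Nat.one_le_ceil_iff.2 (by linarith)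
  · calc lam ≤ max 1 lam := le_max_right _ _
      _ = r ^ (s + 1) := hrp.symm
      _ ≤ _ := pow_le_pow_left₀ (by linarith) (Nat.le_ceil r) _
  · calc ((⌈r⌉₊ : ℝ) + 1) ^ (s + 1) ≤ (4 * r) ^ (s + 1) :=
        pow_le_pow_left₀ (by positivity) (by linarith) _
      _ = 4 ^ (s + 1) * max 1 lam := by rw [mul_pow, hrp]
  · intro L hL hl
    have h2 : r ≤ L ^ (1 / ((s : ℝ) + 1)) := by
      rw [hr]
      exact Real.rpow_le_rpow (by linarith) (max_le hL hl) (by positivity)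
    linarith

theorem rp_norm (K : Type) [Field K] [NumberField K] (γ : 𝓞 K) (hγ : γ ≠ 0) :
    1 ≤ (((Algebra.norm ℤ γ).natAbs : ℕ) : ℝ) ∧
    ∑ w : InfinitePlace K, (w.mult : ℝ) * Real.log (w (γ : K)) =
      Real.log (((Algebra.norm ℤ γ).natAbs : ℕ) : ℝ) ∧
    IsIntegral ℤ ((((Algebra.norm ℤ γ).natAbs : ℕ) : K) * (γ : K)⁻¹) := by
  have hγK : (γ : K) ≠ 0 := RingOfIntegers.coe_ne_zero_iff.2 hγ
  have hn : Algebra.norm ℤ γ ≠ 0 := Algebra.norm_ne_zero_iff.2 hγ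
  refine ⟨?_, ?_, ?_⟩
  · have : 1 ≤ (Algebra.norm ℤ γ).natAbs := Nat.one_le_iff_ne_zero.2 (Int.natAbs_ne_zero.2 hn)
    exact_mod_cast this
  · have h1 := InfinitePlace.prod_eq_abs_norm (γ : K)
    have h2 : ((|Algebra.norm ℚ (γ : K)| : ℚ) : ℝ) = (((Algebra.norm ℤ γ).natAbs : ℕ) : ℝ) := by
      rw [← Algebra.coe_norm_int, Nat.cast_natAbs]
      push_cast
      rfl
    rw [← h2, ← h1, Real.log_prod]
    · refine Finset.sum_congr rfl fun w _ => ?_
      rw [Real.log_pow]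
    · intro w _
      exact pow_ne_zero _ (by simpa using hγK)
  · have h1 : (((Ideal.absNorm (Ideal.span {γ}) : ℕ)) : 𝓞 K) ∈ Ideal.span {γ} :=
      Ideal.absNorm_mem _
    rw [Ideal.mem_span_singleton, Ideal.absNorm_span_singleton] at h1
    obtain ⟨z, hz⟩ := h1
    have h2 : (((Algebra.norm ℤ γ).natAbs : ℕ) : K) * (γ : K)⁻¹ = (z : K) := by
      have h3 := congrArg (fun x : 𝓞 K => (x : K)) hz
      simp only [map_natCast, map_mul] at h3
      rw [h3]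
      field_simp
    rw [h2]
    exact z.isIntegral_coe

theorem rp_nat (K : Type) [Field K] [NumberField K] (n : ℕ) : IsIntegral ℤ (n : K) := by
  have h := isIntegral_algebraMap (R := ℤ) (A := K) (x := (n : ℤ))
  simpa using h

theorem rp_size_one {K : Type} [Field K] [NumberField K] : SizeLe (1 : K) 1 := by
  refine ⟨⟨1, le_refl _, by simp, ?_, ?_⟩, fun τ => ?_⟩
  · simpa using isIntegral_one
  · simpa using isIntegral_one
  · simp

theorem rp_pad {K : Type} [Field K] [NumberField K] {ι : Type} [Fintype ι] (n : ℕ)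
    (hn : Fintype.card ι ≤ n) (β : ι → K) (a : ι → ℝ) (c : ι → ℤ) (X : ℝ) (hX : 0 ≤ X)
    (h : ∀ i, β i ≠ 0 ∧ 1 ≤ a i ∧ SizeLe (β i) (a i)) (hc : ∀ i, |(c i : ℝ)| ≤ X) :
    ∃ (β2 : Fin n → K) (a2 : Fin n → ℝ) (c2 : Fin n → ℤ),
      (∀ i, β2 i ≠ 0 ∧ 1 ≤ a2 i ∧ SizeLe (β2 i) (a2 i)) ∧ (∀ i, |(c2 i : ℝ)| ≤ X) ∧
      ∏ i, β i ^ c i = ∏ i, β2 i ^ c2 i ∧ ∏ i, a i = ∏ i, a2 i := by
  obtain ⟨e⟩ : Nonempty (ι ↪ Fin n) := by
    apply Function.Embedding.nonempty_of_card_le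
    simpa using hn
  have hk : ∀ j : Fin n, j ∉ Set.range e → ¬ ∃ i, e i = j := fun j hj h' => hj h'
  refine ⟨Function.extend e β (fun _ => 1), Function.extend e a (fun _ => 1),
    Function.extend e c (fun _ => 0), ?_, ?_, ?_, ?_⟩
  · intro j
    by_cases hj : ∃ i, e i = j
    · obtain ⟨i, rfl⟩ := hj
      rw [e.injective.extend_apply, e.injective.extend_apply]
      exact h i
    · rw [Function.extend_apply' _ _ _ hj, Function.extend_apply' _ _ _ hj]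
      exact ⟨one_ne_zero, le_refl _, rp_size_one⟩
  · intro j
    by_cases hj : ∃ i, e i = j
    · obtain ⟨i, rfl⟩ := hj
      rw [e.injective.extend_apply]
      exact hc i
    · rw [Function.extend_apply' _ _ _ hj]
      simpa using hX
  · apply Fintype.prod_of_injective e e.injective
    · intro j hj
      rw [Function.extend_apply' _ _ _ (hk j hj), one_zpow]
    · intro i
      rw [e.injective.extend_apply, e.injective.extend_apply]
  · apply Fintype.prod_of_injective e e.injective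
    · intro j hj
      rw [Function.extend_apply' _ _ _ (hk j hj)]
    · intro i
      rw [e.injective.extend_apply]

/-- a single bound for the `lam i` -/
theorem rp_lam {r : ℕ} (hr : r ≤ 2) (lam : Fin r → ℝ) {c1 P : ℝ} (hc0 : 0 < c1) (hc1 : c1 ≤ 1)
    (hl : ∀ i, c1 ≤ lam i) (hP : ∏ i, lam i ≤ P) (i : Fin r) : lam i ≤ P / c1 ^ 2 := by
  rw [le_div_iff₀ (by positivity)]
  refine le_trans ?_ hP
  rw [← Finset.mul_prod_erase Finset.univ lam (Finset.mem_univ i)]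
  refine mul_le_mul_of_nonneg_left ?_ (le_trans hc0.le (hl i))
  calc c1 ^ 2 ≤ c1 ^ (Finset.univ.erase i).card := by
        apply pow_le_pow_of_le_one hc0.le hc1
        rw [Finset.card_erase_of_mem (Finset.mem_univ i), Finset.card_univ, Fintype.card_fin]
        omega
    _ = ∏ j ∈ Finset.univ.erase i, c1 := by rw [Finset.prod_const]
    _ ≤ _ := Finset.prod_le_prod (fun _ _ => hc0.le) fun j _ => hl j

/-- powers of the logarithm -/
theorem rp_log {C0 D ε : ℝ} (m : ℕ) (hm : 0 < m) (hC0 : 1 ≤ C0) (hD : 1 ≤ D) (hε : 0 < ε)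
    (hΔ : 0 ≤ Real.log (C0 * Real.sqrt D)) :
    (Real.log (C0 * Real.sqrt D)) ^ m ≤
      (1 / (ε / (2 * m))) ^ m * C0 ^ (ε / 2) * D ^ (ε / 4) := by
  have hm' : (0 : ℝ) < m := by exact_mod_cast hm
  have hδ : 0 < ε / (2 * m) := by positivity
  have h1 := Real.log_le_rpow_div (x := C0 * Real.sqrt D) (by positivity) hδ
  have h2 : ((C0 * Real.sqrt D) ^ (ε / (2 * m))) ^ m = C0 ^ (ε / 2) * D ^ (ε / 4) := by
    rw [← Real.rpow_natCast, ← Real.rpow_mul (by positivity)]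
    have : ε / (2 * m) * (m : ℝ) = ε / 2 := by field_simp
    rw [this, Real.mul_rpow (by linarith) (Real.sqrt_nonneg _), Real.sqrt_eq_rpow,
      ← Real.rpow_mul (by linarith)]
    congr 2
    ring
  calc (Real.log (C0 * Real.sqrt D)) ^ m ≤ ((C0 * Real.sqrt D) ^ (ε / (2 * m)) / (ε / (2 * m))) ^ m :=
        pow_le_pow_left₀ hΔ h1 _
    _ = _ := by
        rw [div_pow, h2, one_div, inv_pow]
        ring

theorem rp_num (ε C0 C1 c1 : ℝ) (s : ℕ) (hε : 0 < ε) (hs : 1 / ((s : ℝ) + 1) ≤ ε / 4)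
    (hC0 : 1 ≤ C0) (hC1 : 1 ≤ C1) (hc0 : 0 < c1) (hc1 : c1 ≤ 1) :
    ∃ C : ℝ, 1 ≤ C ∧ ∀ (D N Δ : ℝ) (r : ℕ) (lam : Fin r → ℝ) (B : Fin r → ℕ), 1 ≤ D → 1 ≤ N →
      Δ = Real.log (C0 * Real.sqrt D) → 1 ≤ Δ → r ≤ 2 → (∀ i, c1 ≤ lam i) →
      ∏ i, lam i ≤ C1 * D ^ (1 / 2 + min (ε / 2) (1 / 2)) →
      (∀ i, 1 ≤ B i ∧ ((B i : ℝ) + 1) ^ (s + 1) ≤ 4 ^ (s + 1) * max 1 (lam i) ∧
        ∀ L : ℝ, 1 ≤ L → lam i ≤ L → (B i : ℝ) ≤ 2 * L ^ (1 / ((s : ℝ) + 1))) →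
      (∀ i, (B i : ℝ) ^ s ≤ C * D) ∧
      (Real.log N + (s + 1) * Δ * ∑ i, (B i : ℝ) + 1) * ∏ i, (((B i : ℝ) + 1) * Δ) ^ (s + 1) ≤
        C * D ^ (1 / 2 + ε) * N ^ ε := by
  obtain ⟨G, hG⟩ : ∃ G, G = C1 / c1 ^ 2 := ⟨_, rfl⟩
  have hG1 : 1 ≤ G := by
    rw [hG, le_div_iff₀ (by positivity)]
    nlinarith
  obtain ⟨m, hm⟩ : ∃ m, m = 2 * (s + 1) + 1 := ⟨_, rfl⟩
  have hs0 : (0 : ℝ) < (s : ℝ) + 1 := by positivity
  obtain ⟨Ca, hCa⟩ : ∃ Ca, Ca = 1 / ε + 1 + 4 * (s + 1) * G := ⟨_, rfl⟩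
  have hCa0 : 0 ≤ Ca := by rw [hCa]; positivity
  obtain ⟨Cd, hCd⟩ : ∃ Cd, Cd = (1 / (ε / (2 * m))) ^ m * C0 ^ (ε / 2) := ⟨_, rfl⟩
  have hCd0 : 0 ≤ Cd := by rw [hCd]; positivity
  refine ⟨max (2 ^ s * G) (Ca * Cd * 4 ^ (2 * (s + 1)) * G), ?_, ?_⟩
  · refine le_trans ?_ (le_max_left _ _)
    have : (1 : ℝ) ≤ 2 ^ s := one_le_pow₀ (by norm_num)
    nlinarith
  intro D N Δ r lam B hD hN hΔ hΔ1 hr hl hP hB
  obtain ⟨ε', hε'⟩ : ∃ ε', ε' = min (ε / 2) (1 / 2) := ⟨_, rfl⟩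
  rw [← hε'] at hP
  have hε1 : ε' ≤ ε / 2 := by rw [hε']; exact min_le_left _ _
  have hε2 : ε' ≤ 1 / 2 := by rw [hε']; exact min_le_right _ _
  have hε3 : 0 < ε' := by rw [hε']; exact lt_min (by linarith) (by norm_num)
  have hD0 : 0 < D := by linarith
  obtain ⟨L, hL⟩ : ∃ L, L = G * D ^ (1 / 2 + ε') := ⟨_, rfl⟩
  have hD1 : 1 ≤ D ^ (1 / 2 + ε') := Real.one_le_rpow hD (by linarith)
  have hL1 : 1 ≤ L := by rw [hL]; nlinarith
  have hlL : ∀ i, lam i ≤ L := by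
    intro i
    have := rp_lam hr lam hc0 hc1 hl hP i
    rw [hL, hG]
    calc lam i ≤ _ := this
      _ = _ := by ring
  have hBL : ∀ i, (B i : ℝ) ≤ 2 * L ^ (1 / ((s : ℝ) + 1)) := fun i => (hB i).2.2 L hL1 (hlL i)
  have hL2 : L ≤ G * D := by
    rw [hL]
    refine mul_le_mul_of_nonneg_left ?_ (by linarith)
    calc D ^ (1 / 2 + ε') ≤ D ^ (1 : ℝ) := Real.rpow_le_rpow_of_exponent_le hD (by linarith)
      _ = D := Real.rpow_one D
  have hLs : L ^ (1 / ((s : ℝ) + 1)) ≤ G * D ^ (ε / 4) := by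
    calc L ^ (1 / ((s : ℝ) + 1)) ≤ (G * D) ^ (1 / ((s : ℝ) + 1)) :=
          Real.rpow_le_rpow (by linarith) hL2 (by positivity)
      _ = G ^ (1 / ((s : ℝ) + 1)) * D ^ (1 / ((s : ℝ) + 1)) :=
          Real.mul_rpow (by linarith) hD0.le
      _ ≤ G * D ^ (ε / 4) := by
          refine mul_le_mul ?_ (Real.rpow_le_rpow_of_exponent_le hD hs) (by positivity)
            (by linarith)
          calc G ^ (1 / ((s : ℝ) + 1)) ≤ G ^ (1 : ℝ) := by
                apply Real.rpow_le_rpow_of_exponent_le hG1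
                rw [div_le_one hs0]
                have : (0 : ℝ) ≤ s := Nat.cast_nonneg s
                linarith
            _ = G := Real.rpow_one G
  constructor
  · intro i
    refine le_trans ?_ (mul_le_mul_of_nonneg_right (le_max_left _ _) hD0.le)
    calc (B i : ℝ) ^ s ≤ (2 * L ^ (1 / ((s : ℝ) + 1))) ^ s :=
          pow_le_pow_left₀ (Nat.cast_nonneg _) (hBL i) _
      _ = 2 ^ s * (L ^ (1 / ((s : ℝ) + 1))) ^ s := mul_pow _ _ _
      _ ≤ 2 ^ s * (G * D) := by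
          refine mul_le_mul_of_nonneg_left ?_ (by positivity)
          rw [← Real.rpow_natCast, ← Real.rpow_mul (by linarith)]
          calc L ^ (1 / ((s : ℝ) + 1) * (s : ℝ)) ≤ L ^ (1 : ℝ) := by
                apply Real.rpow_le_rpow_of_exponent_le hL1
                rw [div_mul_eq_mul_div, one_mul, div_le_one hs0]
                linarith
            _ = L := Real.rpow_one L
            _ ≤ _ := hL2
      _ = _ := by ring
  · have hN0 : 0 < N := by linarith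
    have hNe : 1 ≤ N ^ ε := Real.one_le_rpow hN hε.le
    have hDe : 1 ≤ D ^ (ε / 4) := Real.one_le_rpow hD (by linarith)
    have h1 : Real.log N ≤ 1 / ε * N ^ ε := by
      have := Real.log_le_rpow_div hN0.le hε
      calc Real.log N ≤ _ := this
        _ = _ := by ring
    have h2 : ∑ i, (B i : ℝ) ≤ 4 * G * D ^ (ε / 4) := by
      calc ∑ i, (B i : ℝ) ≤ ∑ i : Fin r, 2 * (G * D ^ (ε / 4)) :=
            Finset.sum_le_sum fun i _ => le_trans (hBL i)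
              (mul_le_mul_of_nonneg_left hLs (by norm_num))
        _ = r * (2 * (G * D ^ (ε / 4))) := by
            rw [Finset.sum_const, Finset.card_univ, Fintype.card_fin, nsmul_eq_mul]
        _ ≤ 2 * (2 * (G * D ^ (ε / 4))) := by
            refine mul_le_mul_of_nonneg_right ?_ (by positivity)
            exact_mod_cast hr
        _ = _ := by ring
    have h3 : Real.log N + (s + 1) * Δ * ∑ i, (B i : ℝ) + 1 ≤ Ca * N ^ ε * D ^ (ε / 4) * Δ := by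
      have e1 : 1 / ε * N ^ ε ≤ 1 / ε * N ^ ε * D ^ (ε / 4) * Δ := by
        have h5 : 0 ≤ 1 / ε * N ^ ε := by positivity
        have h6 : 1 ≤ D ^ (ε / 4) * Δ := by nlinarith
        calc 1 / ε * N ^ ε = 1 / ε * N ^ ε * 1 := by ring
          _ ≤ 1 / ε * N ^ ε * (D ^ (ε / 4) * Δ) := mul_le_mul_of_nonneg_left h6 h5
          _ = _ := by ring
      have e2 : 1 ≤ N ^ ε * D ^ (ε / 4) * Δ := by
        have : 1 ≤ N ^ ε * D ^ (ε / 4) := by nlinarith
        nlinarith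
      have e3 : (s + 1) * Δ * ∑ i, (B i : ℝ) ≤ 4 * (s + 1) * G * N ^ ε * D ^ (ε / 4) * Δ := by
        calc (s + 1) * Δ * ∑ i, (B i : ℝ) ≤ (s + 1) * Δ * (4 * G * D ^ (ε / 4)) :=
              mul_le_mul_of_nonneg_left h2 (by positivity)
          _ = (4 * (s + 1) * G * D ^ (ε / 4) * Δ) * 1 := by ring
          _ ≤ (4 * (s + 1) * G * D ^ (ε / 4) * Δ) * N ^ ε :=
              mul_le_mul_of_nonneg_left hNe (by positivity)
          _ = _ := by ring
      rw [hCa]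
      calc Real.log N + (s + 1) * Δ * ∑ i, (B i : ℝ) + 1 ≤
          1 / ε * N ^ ε * D ^ (ε / 4) * Δ + 4 * (s + 1) * G * N ^ ε * D ^ (ε / 4) * Δ +
            N ^ ε * D ^ (ε / 4) * Δ := by linarith
        _ = _ := by ring
    have h4 : ∏ i, (((B i : ℝ) + 1) * Δ) ^ (s + 1) ≤
        4 ^ (2 * (s + 1)) * Δ ^ (2 * (s + 1)) * G * D ^ (1 / 2 + ε') := by
      have f1 : ∀ i, (((B i : ℝ) + 1) * Δ) ^ (s + 1) ≤ (4 ^ (s + 1) * Δ ^ (s + 1) / c1) * lam i := by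
        intro i
        rw [mul_pow]
        have g1 : max 1 (lam i) ≤ lam i / c1 := by
          rw [le_div_iff₀ hc0]
          rcases le_total 1 (lam i) with h | h
          · rw [max_eq_right h]
            nlinarith
          · rw [max_eq_left h, one_mul]
            exact hl i
        calc ((B i : ℝ) + 1) ^ (s + 1) * Δ ^ (s + 1) ≤
              (4 ^ (s + 1) * max 1 (lam i)) * Δ ^ (s + 1) :=
              mul_le_mul_of_nonneg_right (hB i).2.1 (by positivity)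
          _ ≤ (4 ^ (s + 1) * (lam i / c1)) * Δ ^ (s + 1) :=
              mul_le_mul_of_nonneg_right (mul_le_mul_of_nonneg_left g1 (by positivity))
                (by positivity)
          _ = _ := by ring
      have f2 : 1 ≤ 4 ^ (s + 1) * Δ ^ (s + 1) / c1 := by
        rw [le_div_iff₀ hc0, one_mul]
        have : (1 : ℝ) ≤ 4 ^ (s + 1) := one_le_pow₀ (by norm_num)
        have : 1 ≤ Δ ^ (s + 1) := one_le_pow₀ hΔ1
        nlinarith
      have f3 : 0 ≤ ∏ i, lam i := Finset.prod_nonneg fun i _ => le_trans hc0.le (hl i)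
      calc ∏ i, (((B i : ℝ) + 1) * Δ) ^ (s + 1) ≤
            ∏ i, ((4 ^ (s + 1) * Δ ^ (s + 1) / c1) * lam i) :=
            Finset.prod_le_prod (fun i _ => by positivity) fun i _ => f1 i
        _ = (4 ^ (s + 1) * Δ ^ (s + 1) / c1) ^ r * ∏ i, lam i := by
            rw [Finset.prod_mul_distrib, Finset.prod_const, Finset.card_univ, Fintype.card_fin]
        _ ≤ (4 ^ (s + 1) * Δ ^ (s + 1) / c1) ^ 2 * ∏ i, lam i :=
            mul_le_mul_of_nonneg_right (pow_le_pow_right₀ f2 hr) f3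
        _ ≤ (4 ^ (s + 1) * Δ ^ (s + 1) / c1) ^ 2 * (C1 * D ^ (1 / 2 + ε')) :=
            mul_le_mul_of_nonneg_left hP (by positivity)
        _ = _ := by
            rw [hG, div_pow, mul_pow, ← pow_mul, ← pow_mul, mul_comm (s + 1) 2]
            ring
    have h5 : Δ ^ m ≤ Cd * D ^ (ε / 4) := by
      rw [hΔ, hCd]
      exact rp_log m (by omega) hC0 hD hε (by rw [← hΔ]; linarith)
    have h6 : D ^ (ε / 4) * (D ^ (ε / 4) * D ^ (1 / 2 + ε')) ≤ D ^ (1 / 2 + ε) := by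
      rw [← Real.rpow_add hD0, ← Real.rpow_add hD0]
      exact Real.rpow_le_rpow_of_exponent_le hD (by linarith)
    calc (Real.log N + (s + 1) * Δ * ∑ i, (B i : ℝ) + 1) * ∏ i, (((B i : ℝ) + 1) * Δ) ^ (s + 1) ≤
          (Ca * N ^ ε * D ^ (ε / 4) * Δ) *
            (4 ^ (2 * (s + 1)) * Δ ^ (2 * (s + 1)) * G * D ^ (1 / 2 + ε')) := by
          refine mul_le_mul h3 h4 (Finset.prod_nonneg fun i _ => by positivity) (by positivity)
      _ = (Ca * 4 ^ (2 * (s + 1)) * G * N ^ ε * (D ^ (ε / 4) * D ^ (1 / 2 + ε'))) * Δ ^ m := by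
          rw [hm, pow_succ]
          ring
      _ ≤ (Ca * 4 ^ (2 * (s + 1)) * G * N ^ ε * (D ^ (ε / 4) * D ^ (1 / 2 + ε'))) *
            (Cd * D ^ (ε / 4)) := mul_le_mul_of_nonneg_left h5 (by positivity)
      _ = (Ca * Cd * 4 ^ (2 * (s + 1)) * G * N ^ ε) *
            (D ^ (ε / 4) * (D ^ (ε / 4) * D ^ (1 / 2 + ε'))) := by ring
      _ ≤ (Ca * Cd * 4 ^ (2 * (s + 1)) * G * N ^ ε) * D ^ (1 / 2 + ε) :=
          mul_le_mul_of_nonneg_left h6 (by positivity)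
      _ = (Ca * Cd * 4 ^ (2 * (s + 1)) * G) * D ^ (1 / 2 + ε) * N ^ ε := by ring
      _ ≤ _ := by
          refine mul_le_mul_of_nonneg_right (mul_le_mul_of_nonneg_right (le_max_right _ _)
            (by positivity)) (by positivity)

theorem st_REPR (hMINK : ST_MINK) (hLAT : ST_LAT) (hUNV : ST_UNV) (hCHN : ST_CHN) :
    ST_REPR := by
  intro ε hε
  obtain ⟨C0, hC0, hMP⟩ := hMINK
  obtain ⟨c1, hc0, hc1, hL⟩ := hLAT
  have hε'0 : 0 < min (ε / 2) (1 / 2) := lt_min (by linarith) (by norm_num)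
  obtain ⟨C1, hC1, hU⟩ := hUNV c1 (min (ε / 2) (1 / 2)) hc0 hc1 hε'0
  obtain ⟨s, hs⟩ : ∃ s : ℕ, 1 / ((s : ℝ) + 1) ≤ ε / 4 := by
    obtain ⟨s, hs⟩ := exists_nat_one_div_lt (show 0 < ε / 4 by linarith)
    exact ⟨s, hs.le⟩
  obtain ⟨C2, hC2, hnum⟩ := rp_num ε C0 C1 c1 s hε hs (by linarith) hC1 hc0 hc1
  have hc2 : 0 < c1 ^ 2 := by positivity
  refine ⟨2 * (s + 1), (2 / c1 ^ 2 + 2) * C2, ?_, ?_⟩
  · have : 0 < 2 / c1 ^ 2 := by positivity
    nlinarith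
  intro K _ _ hK γ H hγ hH hw
  obtain ⟨r, η, lam, hr, hUL⟩ := hL K hK
  obtain ⟨D, hD⟩ : ∃ D, D = |(discr K : ℝ)| := ⟨_, rfl⟩
  have hD1 : 1 ≤ D := by
    rw [hD]
    have h1 : (1 : ℤ) ≤ |discr K| := Int.one_le_abs (discr_ne_zero K)
    exact_mod_cast h1
  have hD0 : 0 < D := by linarith
  obtain ⟨Δ, hΔ⟩ : ∃ Δ, Δ = Real.log (C0 * Real.sqrt D) := ⟨_, rfl⟩
  have hMPΔ : MP K Δ := by rw [hΔ, hD]; exact hMP K hK
  have hΔ1 : 1 ≤ Δ := hMPΔ.1
  have hlam := hU K hK r η lam hr hUL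
  rw [← hD] at hlam ⊢
  choose B hB1 hB2 hB3 hB4 using fun i => rp_B s (lam i)
  obtain ⟨N, hN⟩ : ∃ N, N = (((Algebra.norm ℤ γ).natAbs : ℕ) : ℝ) := ⟨_, rfl⟩
  obtain ⟨hN1, hN2, hN3⟩ := rp_norm K γ hγ
  rw [← hN] at hN1 hN2 ⊢
  obtain ⟨hn1, hn2⟩ := hnum D N Δ r lam B hD1 hN1 hΔ hΔ1 hr hUL.lam_ge hlam
    fun i => ⟨hB1 i, hB3 i, hB4 i⟩
  have hγK : (γ : K) ≠ 0 := RingOfIntegers.coe_ne_zero_iff.2 hγ
  have hlogN : 0 ≤ Real.log N := Real.log_nonneg hN1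
  have hmult : ∑ w : InfinitePlace K, (w.mult : ℝ) = 3 := by
    have := InfinitePlace.sum_mult_eq (K := K)
    rw [hK] at this
    exact_mod_cast this
  have hν : Real.log N / 3 ≤ H := by
    rw [← hN2]
    have : ∑ w : InfinitePlace K, (w.mult : ℝ) * Real.log (w (γ : K)) ≤
        ∑ w : InfinitePlace K, (w.mult : ℝ) * H :=
      Finset.sum_le_sum fun w _ => mul_le_mul_of_nonneg_left
        (le_trans (le_abs_self _) (hw w)) (Nat.cast_nonneg _)
    rw [← Finset.sum_mul, hmult] at this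
    linarith
  obtain ⟨x, hx⟩ := hUL.span (fun w => Real.log (w (γ : K)) - Real.log N / 3) (by
    simp only [mul_sub]
    rw [Finset.sum_sub_distrib, hN2, ← Finset.sum_mul, hmult]
    ring)
  have hxM := hUL.orth x (2 * H) (fun w => by
    rw [← hx w]
    have h1 := abs_le.1 (hw w)
    rw [abs_le]
    constructor <;> linarith [h1.1, h1.2])
  have hxb : ∀ i, |x i| ≤ 2 * H / c1 ^ 2 := by
    intro i
    rw [le_div_iff₀ hc2]
    have h1 := hxM i
    have h2 := hUL.lam_ge i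
    have h3 : 0 ≤ c1 * |x i| := by positivity
    nlinarith
  choose β hβ hβc using fun i => hCHN K Δ hMPΔ s (η i) (lam i) (B i) (hB1 i) (hUL.log_le i) (hB2 i)
  choose c hc1' hc2' q hq1 hq2 hq3 hq4 using fun i => hβc i (x i)
  obtain ⟨X, hX⟩ : ∃ X, X = (2 / c1 ^ 2 + 2) * C2 * H * D ^ ((2 / c1 ^ 2 + 2) * C2) := ⟨_, rfl⟩
  have hCge : 1 ≤ (2 / c1 ^ 2 + 2) * C2 := by
    have : 0 < 2 / c1 ^ 2 := by positivity
    nlinarith
  have hX0 : 0 ≤ X := by
    rw [hX]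
    have : 0 ≤ D ^ ((2 / c1 ^ 2 + 2) * C2) := by positivity
    positivity
  have hcX : ∀ i k, |(c i k : ℝ)| ≤ X := by
    intro i k
    have h1 : |x i| + 2 ≤ (2 / c1 ^ 2 + 2) * H := by
      calc |x i| + 2 ≤ 2 * H / c1 ^ 2 + 2 * H := by linarith [hxb i]
        _ = _ := by ring
    have h2 : D ≤ D ^ ((2 / c1 ^ 2 + 2) * C2) := by
      calc D = D ^ (1 : ℝ) := (Real.rpow_one D).symm
        _ ≤ _ := Real.rpow_le_rpow_of_exponent_le hD1 hCge
    calc |(c i k : ℝ)| ≤ (|x i| + 2) * (B i : ℝ) ^ s := hc1' i k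
      _ ≤ ((2 / c1 ^ 2 + 2) * H) * (C2 * D) :=
          mul_le_mul h1 (hn1 i) (by positivity) (by positivity)
      _ = ((2 / c1 ^ 2 + 2) * C2 * H) * D := by ring
      _ ≤ ((2 / c1 ^ 2 + 2) * C2 * H) * D ^ ((2 / c1 ^ 2 + 2) * C2) :=
          mul_le_mul_of_nonneg_left h2 (by positivity)
      _ = X := hX.symm
  have hcard : Fintype.card (Fin r × Fin (s + 1)) ≤ 2 * (s + 1) := by
    rw [Fintype.card_prod, Fintype.card_fin, Fintype.card_fin]
    exact Nat.mul_le_mul_right _ hr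
  obtain ⟨β2, a2, c2, h2a, h2b, h2c, h2d⟩ := rp_pad (K := K) (ι := Fin r × Fin (s + 1))
    (2 * (s + 1)) hcard (fun p => β p.1 p.2) (fun p => ((B p.1 : ℝ) + 1) * Δ)
    (fun p => c p.1 p.2) X hX0 (fun p => ⟨(hβ p.1 p.2).1, by
      have : (0 : ℝ) ≤ B p.1 := Nat.cast_nonneg _
      nlinarith, (hβ p.1 p.2).2⟩) fun p => hcX p.1 p.2
  have hg : ∏ p : Fin r × Fin (s + 1), β p.1 p.2 ^ c p.1 p.2 =
      ∏ i, ∏ k, β i k ^ c i k := Fintype.prod_prod_type _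
  have hg0 : ∀ i, ∏ k, β i k ^ c i k ≠ 0 := fun i =>
    Finset.prod_ne_zero_iff.2 fun k _ => zpow_ne_zero _ (hβ i k).1
  have hg1 : ∏ i, ∏ k, β i k ^ c i k ≠ 0 := Finset.prod_ne_zero_iff.2 fun i _ => hg0 i
  have ha : ∏ p : Fin r × Fin (s + 1), (((B p.1 : ℝ) + 1) * Δ) =
      ∏ i, (((B i : ℝ) + 1) * Δ) ^ (s + 1) := by
    rw [Fintype.prod_prod_type]
    refine Finset.prod_congr rfl fun i _ => ?_
    change ∏ _y : Fin (s + 1), (((B i : ℝ) + 1) * Δ) = _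
    rw [Finset.prod_const, Finset.card_univ, Fintype.card_fin]
  refine ⟨β2, a2, (γ : K) * (∏ i, ∏ k, β i k ^ c i k)⁻¹,
    Real.log N + (s + 1) * Δ * ∑ i, (B i : ℝ) + 1, c2, h2a, mul_ne_zero hγK (inv_ne_zero hg1),
    ?_, ?_, ?_, ?_, ?_⟩
  · have : 0 ≤ (s + 1) * Δ * ∑ i, (B i : ℝ) := by
      have : 0 ≤ ∑ i, (B i : ℝ) := Finset.sum_nonneg fun i _ => Nat.cast_nonneg _
      positivity
    linarith
  · have hqs : Real.log ((∏ i, q i : ℕ) : ℝ) ≤ (s + 1) * Δ * ∑ i, (B i : ℝ) := by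
      push_cast
      rw [Real.log_prod fun i _ => by
        have := hq1 i
        positivity]
      calc ∑ i, Real.log (q i : ℝ) ≤ ∑ i, (s + 1) * Δ * (B i : ℝ) := by
            refine Finset.sum_le_sum fun i _ => le_trans (hq2 i) ?_
            have h1 : (0 : ℝ) ≤ B i * Δ := by positivity
            nlinarith
        _ = _ := by rw [Finset.mul_sum]
    have hq0 : 1 ≤ ∏ i, q i := Nat.one_le_iff_ne_zero.2
      (Finset.prod_ne_zero_iff.2 fun i _ => Nat.one_le_iff_ne_zero.1 (hq1 i))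
    have hNn : 1 ≤ (Algebra.norm ℤ γ).natAbs := by
      rw [hN] at hN1
      exact_mod_cast hN1
    refine ⟨⟨(Algebra.norm ℤ γ).natAbs * ∏ i, q i, Nat.mul_le_mul hNn hq0, ?_, ?_, ?_⟩, ?_⟩
    · rw [Nat.cast_mul, Real.log_mul (by positivity) (by positivity), ← hN]
      linarith
    · have h1 : (((Algebra.norm ℤ γ).natAbs * ∏ i, q i : ℕ) : K) *
          ((γ : K) * (∏ i, ∏ k, β i k ^ c i k)⁻¹) =
          (((Algebra.norm ℤ γ).natAbs : ℕ) : K) * (γ : K) *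
            ∏ i, ((q i : K) * (∏ k, β i k ^ c i k)⁻¹) := by
        rw [Finset.prod_mul_distrib, Finset.prod_inv_distrib]
        push_cast
        ring
      rw [h1]
      refine IsIntegral.mul (IsIntegral.mul (rp_nat K _) γ.isIntegral_coe) ?_
      exact IsIntegral.prod _ fun i _ => hq4 i
    · have h1 : (((Algebra.norm ℤ γ).natAbs * ∏ i, q i : ℕ) : K) *
          ((γ : K) * (∏ i, ∏ k, β i k ^ c i k)⁻¹)⁻¹ =
          ((((Algebra.norm ℤ γ).natAbs : ℕ) : K) * (γ : K)⁻¹) *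
            ∏ i, ((q i : K) * (∏ k, β i k ^ c i k)) := by
        rw [Finset.prod_mul_distrib, mul_inv, inv_inv]
        push_cast
        ring
      rw [h1]
      exact IsIntegral.mul hN3 (IsIntegral.prod _ fun i _ => hq3 i)
    · intro τ
      have h0 : ‖τ ((γ : K) * (∏ i, ∏ k, β i k ^ c i k)⁻¹)‖ =
          (InfinitePlace.mk τ) ((γ : K) * (∏ i, ∏ k, β i k ^ c i k)⁻¹) :=
        (InfinitePlace.apply τ _).symm
      rw [h0, map_mul, map_inv₀, map_prod]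
      obtain ⟨w, hwτ⟩ : ∃ w, w = InfinitePlace.mk τ := ⟨_, rfl⟩
      rw [← hwτ]
      have h1 : ∀ i, w (∏ k, β i k ^ c i k) ≠ 0 := fun i => (map_ne_zero w).2 (hg0 i)
      rw [Real.log_mul (by simpa using hγK) (inv_ne_zero (Finset.prod_ne_zero_iff.2 fun i _ => h1 i)),
        Real.log_inv, Real.log_prod fun i _ => h1 i]
      have h2 : Real.log (w (γ : K)) + -∑ i, Real.log (w (∏ k, β i k ^ c i k)) =
          Real.log N / 3 - ∑ i, (Real.log (w (∏ k, β i k ^ c i k)) -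
            x i * Real.log (w ((η i : 𝓞 K) : K))) := by
        rw [Finset.sum_sub_distrib, ← hx w]
        ring
      rw [h2]
      have h3 : |∑ i, (Real.log (w (∏ k, β i k ^ c i k)) -
            x i * Real.log (w ((η i : 𝓞 K) : K)))| ≤ (s + 1) * Δ * ∑ i, (B i : ℝ) := by
        refine le_trans (Finset.abs_sum_le_sum_abs _ _) ?_
        rw [Finset.mul_sum]
        refine Finset.sum_le_sum fun i _ => le_trans (hc2' i w) ?_
        apply le_of_eq
        ring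
      have h4 := abs_le.1 h3
      rw [abs_le]
      constructor <;> linarith [h4.1, h4.2]
  · rw [← h2c, hg]
    field_simp
  · intro i
    rw [← hX]
    exact h2b i
  · rw [← h2d, ha]
    refine le_trans hn2 ?_
    have h1 : C2 ≤ (2 / c1 ^ 2 + 2) * C2 := by
      have : 0 < 2 / c1 ^ 2 := by positivity
      nlinarith
    refine mul_le_mul_of_nonneg_right (mul_le_mul_of_nonneg_right h1 (by positivity))
      (by positivity)

end Pool.Agent.Helper78.HB
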